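import Mathlib

/-! Two groups of order 605 with isomorphic subrack lattices and non-isomorphic conjugation
racks. -/

namespace Q17.Rack

/-- the field with 11 elements -/
abbrev F := ZMod 11

instance : Fact (Nat.Prime 11) := ⟨by norm_num⟩
instance : Fact (Nat.Prime 5) := ⟨by norm_num⟩

/-- `3 ^ c`, an element of order five modulo 11 -/
def lam (c : ZMod 5) : F := 3 ^ c.val

lemma lam_add : ∀ c d : ZMod 5, lam (c + d) = lam c * lam d := by decide
lemma lam_zero : lam 0 = 1 := by decide
lemma lam_ne_zero : ∀ c : ZMod 5, lam c ≠ 0 := by decide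
lemma lam_ne_one : ∀ c : ZMod 5, c ≠ 0 → lam c ≠ 1 := by decide
lemma lam_inj : ∀ c d : ZMod 5, lam c = lam d → c = d := by decide
lemma lam_pow4 : ∀ c : ZMod 5, lam c * (lam c * (lam c * (lam c * lam c))) = 1 := by decide

/-- the diagonal matrix `diag(3 ^ c, 3 ^ (i c))` -/
def T (i c : ZMod 5) (v : F × F) : F × F := (lam c * v.1, lam (i * c) * v.2)

lemma neg_eq_four : ∀ d : ZMod 5, -d = d + (d + (d + d)) := by decide

lemma T_add (i c : ZMod 5) (v w : F × F) : T i c (v + w) = T i c v + T i c w := by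
  ext <;> simp [T, mul_add]

lemma T_sub (i c : ZMod 5) (v w : F × F) : T i c (v - w) = T i c v - T i c w := by
  ext <;> simp [T, mul_sub]

lemma T_T (i c d : ZMod 5) (v : F × F) : T i c (T i d v) = T i (c + d) v := by
  ext
  · simp [T, lam_add, mul_assoc]
  · simp [T, lam_add, mul_assoc, mul_add]

lemma T_zero (i : ZMod 5) (v : F × F) : T i 0 v = v := by
  ext <;> simp [T, lam_zero]

/-- The group of maps `x ↦ v + diag(3 ^ c, 3 ^ (i c)) x` of the plane over the field with 11
elements; it has order `605`. -/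
@[ext] structure G (i : ZMod 5) where
  /-- the translation part -/
  v : F × F
  /-- the exponent -/
  c : ZMod 5

variable {i : ZMod 5}

instance : Mul (G i) := ⟨fun a b => ⟨a.v + T i a.c b.v, a.c + b.c⟩⟩
instance : One (G i) := ⟨⟨0, 0⟩⟩
instance : Inv (G i) := ⟨fun a => ⟨-T i (-a.c) a.v, -a.c⟩⟩

lemma mul_v (a b : G i) : (a * b).v = a.v + T i a.c b.v := rfl
lemma mul_c (a b : G i) : (a * b).c = a.c + b.c := rfl
lemma one_v : (1 : G i).v = 0 := rfl
lemma one_c : (1 : G i).c = 0 := rfl
lemma inv_v (a : G i) : (a⁻¹).v = -T i (-a.c) a.v := rfl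
lemma inv_c (a : G i) : (a⁻¹).c = -a.c := rfl

instance : Group (G i) :=
  Group.ofLeftAxioms
    (by
      intro a b c
      apply G.ext
      · rw [mul_v, mul_v, mul_v, mul_v, mul_c, T_add, T_T, add_assoc]
      · rw [mul_c, mul_c, mul_c, mul_c, add_assoc])
    (by
      intro a
      apply G.ext
      · rw [mul_v, one_v, one_c, T_zero, zero_add]
      · rw [mul_c, one_c, zero_add])
    (by
      intro a
      apply G.ext
      · rw [mul_v, inv_v, inv_c, one_v, neg_add_cancel]
      · rw [mul_c, inv_c, one_c, neg_add_cancel])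

/-- as a set -/
def equivProd : G i ≃ (F × F) × ZMod 5 where
  toFun a := (a.v, a.c)
  invFun p := ⟨p.1, p.2⟩
  left_inv _ := rfl
  right_inv _ := rfl

instance : Finite (G i) := Finite.of_equiv _ equivProd.symm

lemma card_G : Nat.card (G i) = 605 := by
  rw [Nat.card_congr (equivProd (i := i))]
  simp

/-- conjugation, in coordinates -/
lemma conj_eq (x y : G i) :
    x * y * x⁻¹ = ⟨x.v + T i x.c y.v - T i y.c x.v, y.c⟩ := by
  apply G.ext
  · rw [mul_v, mul_v, mul_c, inv_v]
    have h : T i (x.c + y.c) (-T i (-x.c) x.v) = - T i y.c x.v := by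
      have h1 : T i (x.c + y.c) (-T i (-x.c) x.v) = -T i (x.c + y.c) (T i (-x.c) x.v) := by
        ext <;> simp [T]
      rw [h1, T_T]
      congr 2
      ring
    rw [h, sub_eq_add_neg]
  · rw [mul_c, mul_c, inv_c]
    ring

/-- the data by which the translations are relabelled -/
structure Lab (i : ZMod 5) where
  /-- relabelling of the translations -/
  ψ : F × F ≃ F × F
  equi : ∀ (d : ZMod 5) (v : F × F), ψ (T 2 d v) = T i d (ψ v)
  supp₁ : ∀ v, (ψ v).1 = 0 ↔ v.1 = 0
  supp₂ : ∀ v, (ψ v).2 = 0 ↔ v.2 = 0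

/-- common underlying set -/
abbrev R := (F × F) × ZMod 5

/-- the centre coordinate: `(1 - T^c) a` -/
def D (i c : ZMod 5) (a : F × F) : F × F := a - T i c a

lemma D_inj (hi : i ≠ 0) {c : ZMod 5} (hc : c ≠ 0) {a b : F × F} (h : D i c a = D i c b) :
    a = b := by
  have h1 := congrArg Prod.fst h
  have h2 := congrArg Prod.snd h
  simp only [D, T, Prod.fst_sub, Prod.snd_sub] at h1 h2
  have e1 : (1 - lam c) * (a.1 - b.1) = 0 := by linear_combination h1
  have e2 : (1 - lam (i * c)) * (a.2 - b.2) = 0 := by linear_combination h2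
  have hn1 : 1 - lam c ≠ 0 := fun h => lam_ne_one c hc (sub_eq_zero.mp h).symm
  have hn2 : 1 - lam (i * c) ≠ 0 := fun h =>
    lam_ne_one (i * c) (mul_ne_zero hi hc) (sub_eq_zero.mp h).symm
  ext
  · exact sub_eq_zero.mp ((mul_eq_zero.mp e1).resolve_left hn1)
  · exact sub_eq_zero.mp ((mul_eq_zero.mp e2).resolve_left hn2)

/-- The element of `G i` with label `(a, c)`. -/
def toG (L : Lab i) (r : R) : G i := if r.2 = 0 then ⟨L.ψ r.1, 0⟩ else ⟨D i r.2 r.1, r.2⟩

lemma toG_zero (L : Lab i) (a : F × F) : toG L (a, 0) = ⟨L.ψ a, 0⟩ := by simp [toG]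

lemma toG_ne (L : Lab i) (a : F × F) {c : ZMod 5} (hc : c ≠ 0) :
    toG L (a, c) = ⟨D i c a, c⟩ := by simp [toG, hc]

lemma toG_c (L : Lab i) (r : R) : (toG L r).c = r.2 := by
  unfold toG
  split_ifs with h
  · exact h.symm
  · rfl

lemma toG_inj (hi : i ≠ 0) (L : Lab i) : Function.Injective (toG L) := by
  rintro ⟨a, c⟩ ⟨b, d⟩ h
  have hcd : c = d := by
    have := congrArg G.c h
    rwa [toG_c, toG_c] at this
  subst hcd
  by_cases hc : c = 0
  · subst hc
    rw [toG_zero, toG_zero] at h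
    have := L.ψ.injective (congrArg G.v h)
    rw [this]
  · rw [toG_ne L a hc, toG_ne L b hc] at h
    rw [D_inj hi hc (congrArg G.v h)]

/-- the labelling as an equivalence -/
noncomputable def eqv (hi : i ≠ 0) (L : Lab i) : R ≃ G i :=
  Equiv.ofBijective (toG L) (by
    have hinj := toG_inj hi L
    refine ⟨hinj, ?_⟩
    have hcard : Nat.card R = Nat.card (G i) := by
      rw [Nat.card_congr (equivProd (i := i))]
    exact ((Nat.bijective_iff_injective_and_card (toG L)).mpr ⟨hinj, hcard⟩).2)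

lemma eqv_apply (hi : i ≠ 0) (L : Lab i) (r : R) : eqv hi L r = toG L r := rfl

/-- the transported operation -/
def op (L : Lab i) (x y : R) : R :=
  if y.2 = 0 then (T 2 x.2 y.1, 0)
  else if x.2 = 0 then (y.1 + L.ψ x.1, y.2) else (x.1 + T i x.2 (y.1 - x.1), y.2)

lemma toG_op (L : Lab i) (x y : R) : toG L (op L x y) = toG L x * toG L y * (toG L x)⁻¹ := by
  obtain ⟨b, d⟩ := x
  obtain ⟨a, c⟩ := y
  rw [conj_eq, toG_c, toG_c]
  by_cases hc : c = 0
  · subst hc
    have h1 : op L (b, d) (a, 0) = (T 2 d a, 0) := by simp [op]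
    rw [h1, toG_zero, toG_zero, L.equi]
    apply G.ext
    · change T i d (L.ψ a) = (toG L (b, d)).v + T i d (L.ψ a) - T i 0 (toG L (b, d)).v
      rw [T_zero]
      abel
    · rfl
  · by_cases hd : d = 0
    · subst hd
      have h1 : op L (b, 0) (a, c) = (a + L.ψ b, c) := by simp [op, hc]
      rw [h1, toG_ne L _ hc, toG_zero, toG_ne L _ hc]
      apply G.ext
      · change D i c (a + L.ψ b) = L.ψ b + T i 0 (D i c a) - T i c (L.ψ b)
        rw [T_zero]
        unfold D
        rw [T_add]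
        abel
      · rfl
    · have h1 : op L (b, d) (a, c) = (b + T i d (a - b), c) := by simp [op, hc, hd]
      rw [h1, toG_ne L _ hc, toG_ne L _ hd, toG_ne L _ hc]
      apply G.ext
      · change D i c (b + T i d (a - b)) = D i d b + T i d (D i c a) - T i c (D i d b)
        unfold D
        simp only [T_add, T_sub, T_T]
        rw [add_comm c d]
        abel
      · rfl

/-- closed subsets for the transported operation -/
def Closed (L : Lab i) (S : Set R) : Prop := ∀ x ∈ S, ∀ y ∈ S, op L x y ∈ S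

/-- the smallest invariant subspace containing `u` -/
def Sp (u : F × F) : Set (F × F) := {w | (u.1 = 0 → w.1 = 0) ∧ (u.2 = 0 → w.2 = 0)}

/-- A description of the closed subsets not mentioning `i`. -/
def Cond (S : Set R) : Prop :=
  (∀ b d n, (b, d) ∈ S → (n, (0 : ZMod 5)) ∈ S → (T 2 d n, (0 : ZMod 5)) ∈ S) ∧
  (∀ b a c, (b, (0 : ZMod 5)) ∈ S → (a, c) ∈ S → c ≠ 0 → ∀ w ∈ Sp b, (a + w, c) ∈ S) ∧
  (∀ b d a c, (b, d) ∈ S → (a, c) ∈ S → c ≠ 0 → d ≠ 0 → ∀ w ∈ Sp (b - a), (a + w, c) ∈ S)

lemma closed_of_cond (L : Lab i) {S : Set R} (h : Cond S) : Closed L S := by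
  rintro ⟨b, d⟩ hx ⟨a, c⟩ hy
  by_cases hc : c = 0
  · subst hc
    have h1 : op L (b, d) (a, 0) = (T 2 d a, 0) := by simp [op]
    rw [h1]
    exact h.1 b d a hx hy
  · by_cases hd : d = 0
    · subst hd
      have h1 : op L (b, 0) (a, c) = (a + L.ψ b, c) := by simp [op, hc]
      rw [h1]
      exact h.2.1 b a c hx hy hc _ ⟨(L.supp₁ b).mpr, (L.supp₂ b).mpr⟩
    · have h1 : op L (b, d) (a, c) = (b + T i d (a - b), c) := by simp [op, hc, hd]
      rw [h1]
      have h2 : b + T i d (a - b) = a + (b - a + T i d (a - b)) := by abel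
      rw [h2]
      refine h.2.2 b d a c hx hy hc hd _ ⟨?_, ?_⟩
      · intro h0
        have h0' : b.1 = a.1 := sub_eq_zero.mp h0
        simp [T, h0']
      · intro h0
        have h0' : b.2 = a.2 := sub_eq_zero.mp h0
        simp [T, h0']

/-- additively closed sets stable under a non-scalar diagonal matrix -/
lemma span_mem (hi : i ≠ 1) {c : ZMod 5} (hc : c ≠ 0) (H : Set (F × F)) (h0 : (0 : F × F) ∈ H)
    (hadd : ∀ u ∈ H, ∀ v ∈ H, u + v ∈ H) (hT : ∀ u ∈ H, T i c u ∈ H) {h : F × F} (hh : h ∈ H) :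
    ∀ w ∈ Sp h, w ∈ H := by
  have hnat : ∀ (n : ℕ) (u : F × F), u ∈ H → ((n : F) * u.1, (n : F) * u.2) ∈ H := by
    intro n u hu
    induction n with
    | zero =>
      have e : (((0 : ℕ) : F) * u.1, ((0 : ℕ) : F) * u.2) = (0 : F × F) := by ext <;> simp
      rw [e]; exact h0
    | succ n ih =>
      have := hadd _ ih _ hu
      convert this using 1
      ext <;> simp [add_mul]
  have hmul : ∀ (s : F) (u : F × F), u ∈ H → (s * u.1, s * u.2) ∈ H := by
    intro s u hu
    have := hnat s.val u hu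
    rwa [ZMod.natCast_zmod_val] at this
  have hne : lam c - lam (i * c) ≠ 0 := by
    intro h1
    have h2 := lam_inj _ _ (sub_eq_zero.mp h1)
    have h3 : (1 - i) * c = 0 := by linear_combination h2
    rcases mul_eq_zero.mp h3 with h4 | h4
    · exact hi (sub_eq_zero.mp h4).symm
    · exact hc h4
  have hx : ∀ x : F, (h.1 = 0 → x = 0) → (x, (0 : F)) ∈ H := by
    intro x hx
    by_cases hh1 : h.1 = 0
    · rw [hx hh1]; exact h0
    · have h1 := hadd _ (hT h hh) _ (hmul (-lam (i * c)) h hh)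
      have h2 := hmul (x / ((lam c - lam (i * c)) * h.1)) _ h1
      convert h2 using 1
      ext
      · simp only [T, Prod.fst_add]
        field_simp
        ring
      · simp [T]
  have hy : ∀ y : F, (h.2 = 0 → y = 0) → ((0 : F), y) ∈ H := by
    intro y hy
    by_cases hh2 : h.2 = 0
    · rw [hy hh2]; exact h0
    · have h1 := hadd _ (hT h hh) _ (hmul (-lam c) h hh)
      have h2 := hmul (-y / ((lam c - lam (i * c)) * h.2)) _ h1
      convert h2 using 1
      ext
      · simp [T]
      · simp only [T, Prod.snd_add]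
        field_simp
        ring
  intro w hw
  have := hadd _ (hx w.1 hw.1) _ (hy w.2 hw.2)
  simpa using this

lemma cond_of_closed (hi : i ≠ 0) (hi1 : i ≠ 1) (L : Lab i) {S : Set R} (h : Closed L S) :
    Cond S := by
  have hNop : ∀ b d n, (b, d) ∈ S → (n, (0 : ZMod 5)) ∈ S → (T 2 d n, (0 : ZMod 5)) ∈ S := by
    intro b d n hb hn
    have := h _ hb _ hn
    simpa [op] using this
  have hop : ∀ b d a c, (b, d) ∈ S → (a, c) ∈ S → c ≠ 0 → d ≠ 0 →
      (b + T i d (a - b), c) ∈ S := by
    intro b d a c hb ha hc hd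
    have := h _ hb _ ha
    simpa [op, hc, hd] using this
  -- inverse operation
  have hinv : ∀ b d a c, (b, d) ∈ S → (a, c) ∈ S → c ≠ 0 → d ≠ 0 →
      (b + T i (-d) (a - b), c) ∈ S := by
    intro b d a c hb ha hc hd
    have h1 := hop b d a c hb ha hc hd
    have h2 := hop b d _ c hb h1 hc hd
    have h3 := hop b d _ c hb h2 hc hd
    have h4 := hop b d _ c hb h3 hc hd
    convert h4 using 2
    have e5 : -d = d + (d + (d + d)) := neg_eq_four d
    rw [e5]
    simp only [add_sub_cancel_left, T_T]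
  -- translations preserving the fibre over `c`
  have key : ∀ (c : ZMod 5) (b : F × F) (d : ZMod 5), c ≠ 0 → d ≠ 0 → (b, d) ∈ S →
      ∀ t : F × F, (∀ u, (u, c) ∈ S → (u + t, c) ∈ S) → ∀ w ∈ Sp t, ∀ u, (u, c) ∈ S →
        (u + w, c) ∈ S := by
    intro c b d hc hd hb t ht w hw
    refine span_mem hi1 hd {t | ∀ u, (u, c) ∈ S → (u + t, c) ∈ S} ?_ ?_ ?_ ht w hw
    · intro u hu
      rwa [add_zero]
    · intro t₁ h₁ t₂ h₂ u hu
      rw [← add_assoc]
      exact h₂ _ (h₁ _ hu)
    · intro t₁ h₁ u hu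
      have e1 := hinv b d u c hb hu hc hd
      have e2 := hop b d _ c hb (h₁ _ e1) hc hd
      convert e2 using 2
      have e3 : b + T i (-d) (u - b) + t₁ - b = T i (-d) (u - b) + t₁ := by abel
      rw [e3, T_add, T_T, add_neg_cancel, T_zero]
      abel
  refine ⟨hNop, ?_, ?_⟩
  · intro b a c hb ha hc w hw
    refine key c a c hc hc ha (L.ψ b) ?_ w ?_ a ha
    · intro u hu
      have := h _ hb _ hu
      simpa [op, hc] using this
    · exact ⟨fun h0 => hw.1 ((L.supp₁ b).mp h0), fun h0 => hw.2 ((L.supp₂ b).mp h0)⟩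
  · intro b d a c hb ha hc hd w hw
    -- the translation by `(1 - T^c)(1 - T^d)(b - a)` preserves the fibre over `c`
    set a' := b + T i d (a - b) with ha'
    have hmem : (a', c) ∈ S := hop b d a c hb ha hc hd
    refine key c b d hc hd hb (D i c (a' - a)) ?_ w ?_ a ha
    · intro u hu
      have e1 := hinv a c u c ha hu hc hc
      have e2 := hop a' c _ c hmem e1 hc hc
      convert e2 using 2
      have e3 : T i c (a + T i (-c) (u - a) - a') = T i c (a - a') + (u - a) := by
        have e4 : a + T i (-c) (u - a) - a' = (a - a') + T i (-c) (u - a) := by abel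
        rw [e4, T_add, T_T, add_neg_cancel, T_zero]
      rw [e3]
      unfold D
      simp only [T_sub]
      abel
    · have hcalc : ∀ x y l m : F, y + l * (x - y) - x = (1 - l) * (y - x) := by
        intro x y l _; ring
      constructor
      · intro h0
        apply hw.1
        have h1 : (D i c (a' - a)).1 = (1 - lam c) * ((1 - lam d) * (b.1 - a.1)) := by
          simp only [D, T, ha', Prod.fst_sub, Prod.fst_add]
          ring
        rw [h1] at h0
        have hn1 : 1 - lam c ≠ 0 := fun h => lam_ne_one c hc (sub_eq_zero.mp h).symm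
        have hn2 : 1 - lam d ≠ 0 := fun h => lam_ne_one d hd (sub_eq_zero.mp h).symm
        rw [Prod.fst_sub]
        exact (mul_eq_zero.mp ((mul_eq_zero.mp h0).resolve_left hn1)).resolve_left hn2
      · intro h0
        apply hw.2
        have h1 : (D i c (a' - a)).2 =
            (1 - lam (i * c)) * ((1 - lam (i * d)) * (b.2 - a.2)) := by
          simp only [D, T, ha', Prod.snd_sub, Prod.snd_add]
          ring
        rw [h1] at h0
        have hn1 : 1 - lam (i * c) ≠ 0 := fun h =>
          lam_ne_one _ (mul_ne_zero hi hc) (sub_eq_zero.mp h).symm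
        have hn2 : 1 - lam (i * d) ≠ 0 := fun h =>
          lam_ne_one _ (mul_ne_zero hi hd) (sub_eq_zero.mp h).symm
        rw [Prod.snd_sub]
        exact (mul_eq_zero.mp ((mul_eq_zero.mp h0).resolve_left hn1)).resolve_left hn2

/-- the trivial labelling -/
def lab2 : Lab 2 where
  ψ := Equiv.refl _
  equi _ _ := rfl
  supp₁ _ := Iff.rfl
  supp₂ _ := Iff.rfl

/-- the labelling of the translations for `i = 4` -/
def psi (v : F × F) : F × F := if v.1 = 0 then (0, v.2 ^ 7) else (v.1, v.1 ^ 2 * v.2)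

/-- its inverse -/
def psiInv (v : F × F) : F × F := if v.1 = 0 then (0, v.2 ^ 3) else (v.1, v.1 ^ 8 * v.2)

lemma pow_aux1 : ∀ y : F, (y ^ 7) ^ 3 = y := by decide
lemma pow_aux2 : ∀ y : F, (y ^ 3) ^ 7 = y := by decide
lemma pow_aux3 : ∀ x : F, x ≠ 0 → x ^ 8 * x ^ 2 = 1 := by decide
lemma pow_aux4 : ∀ d : ZMod 5, ∀ y : F, (lam (2 * d) * y) ^ 7 = lam (4 * d) * y ^ 7 := by decide
lemma pow_aux5 : ∀ d : ZMod 5, lam d ^ 2 * lam (2 * d) = lam (4 * d) := by decide
lemma pow_aux6 : ∀ y : F, y ^ 7 = 0 ↔ y = 0 := by decide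

/-- the labelling for `i = 4` -/
def lab4 : Lab 4 where
  ψ :=
    { toFun := psi
      invFun := psiInv
      left_inv := by
        intro v
        unfold psi psiInv
        by_cases h : v.1 = 0
        · simp only [h, if_true]
          ext
          · exact h.symm
          · exact pow_aux1 _
        · simp only [h, if_false]
          ext
          · rfl
          · simp only
            rw [← mul_assoc, pow_aux3 _ h, one_mul]
      right_inv := by
        intro v
        unfold psi psiInv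
        by_cases h : v.1 = 0
        · simp only [h, if_true]
          ext
          · exact h.symm
          · exact pow_aux2 _
        · simp only [h, if_false]
          ext
          · rfl
          · simp only
            rw [← mul_assoc, mul_comm (v.1 ^ 2), pow_aux3 _ h, one_mul] }
  equi := by
    intro d v
    change psi (T 2 d v) = T 4 d (psi v)
    unfold psi T
    by_cases h : v.1 = 0
    · simp only [h, mul_zero, if_true]
      rw [pow_aux4]
    · have h' : lam d * v.1 ≠ 0 := mul_ne_zero (lam_ne_zero d) h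
      simp only [h, h', if_false]
      ext
      · rfl
      · simp only
        rw [← pow_aux5 d]
        ring
  supp₁ := by
    intro v
    change (psi v).1 = 0 ↔ _
    unfold psi
    by_cases h : v.1 = 0 <;> simp [h]
  supp₂ := by
    intro v
    change (psi v).2 = 0 ↔ _
    unfold psi
    by_cases h : v.1 = 0
    · simp only [h, if_true]
      exact pow_aux6 _
    · simp [h, mul_eq_zero]

/-- A subset of a group is a subrack of the conjugation rack. -/
def IsSubrack {K : Type} [Group K] (S : Set K) : Prop := ∀ x ∈ S, ∀ y ∈ S, x * y * x⁻¹ ∈ S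

lemma isSubrack_iff (hi : i ≠ 0) (hi1 : i ≠ 1) (L : Lab i) (S : Set R) :
    IsSubrack (eqv hi L '' S) ↔ Cond S := by
  constructor
  · intro h
    apply cond_of_closed hi hi1 L
    intro x hx y hy
    obtain ⟨z, hz, hzz⟩ := h _ ⟨x, hx, rfl⟩ _ ⟨y, hy, rfl⟩
    rw [eqv_apply, eqv_apply, eqv_apply, ← toG_op] at hzz
    have := toG_inj hi L hzz
    rwa [← this]
  · rintro h _ ⟨x, hx, rfl⟩ _ ⟨y, hy, rfl⟩
    refine ⟨op L x y, closed_of_cond L h x hx y hy, ?_⟩
    exact toG_op L x y

lemma h20 : (2 : ZMod 5) ≠ 0 := by decide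
lemma h21 : (2 : ZMod 5) ≠ 1 := by decide
lemma h40 : (4 : ZMod 5) ≠ 0 := by decide
lemma h41 : (4 : ZMod 5) ≠ 1 := by decide

/-- the bijection between the two groups -/
noncomputable def Phi : G 2 ≃ G 4 := (eqv h20 lab2).symm.trans (eqv h40 lab4)

lemma phi_subrack (S : Set (G 2)) : IsSubrack S ↔ IsSubrack (Phi '' S) := by
  have h1 : S = eqv h20 lab2 '' ((eqv h20 lab2).symm '' S) := by
    rw [← Set.image_comp]; simp
  have h2 : Phi '' S = eqv h40 lab4 '' ((eqv h20 lab2).symm '' S) := by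
    rw [← Set.image_comp]; rfl
  rw [h2, isSubrack_iff h40 h41 lab4]
  conv_lhs => rw [h1]
  rw [isSubrack_iff h20 h21 lab2]

/-- trivial centre -/
lemma center_trivial (z : G i) (hi : i ≠ 0) (hz : ∀ x : G i, z * x * z⁻¹ = x) : z = 1 := by
  have h1 : ∀ x : G i, z.v + T i z.c x.v - T i x.c z.v = x.v := by
    intro x
    have := congrArg G.v (hz x)
    rwa [conj_eq] at this
  have h2 := h1 ⟨0, 1⟩
  have h3 := h1 ⟨(1, 0), 0⟩
  have hT0 : T i z.c (0 : F × F) = 0 := by ext <;> simp [T]
  simp only [hT0, add_zero] at h2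
  have hv : z.v = 0 := by
    have hl1 : (1 : F) - lam 1 ≠ 0 := by decide
    have hl2 : (1 : F) - lam (i * 1) ≠ 0 := fun h =>
      lam_ne_one (i * 1) (by simpa using hi) (sub_eq_zero.mp h).symm
    have e1 := congrArg Prod.fst h2
    have e2 := congrArg Prod.snd h2
    simp only [T, Prod.fst_sub, Prod.snd_sub, Prod.fst_zero, Prod.snd_zero] at e1 e2
    ext
    · have : (1 - lam 1) * z.v.1 = 0 := by linear_combination e1
      exact (mul_eq_zero.mp this).resolve_left hl1
    · have : (1 - lam (i * 1)) * z.v.2 = 0 := by linear_combination e2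
      exact (mul_eq_zero.mp this).resolve_left hl2
  have hc : z.c = 0 := by
    rw [hv, T_zero] at h3
    have e1 := congrArg Prod.fst h3
    simp only [T, Prod.fst_sub, Prod.fst_add, Prod.fst_zero] at e1
    have : lam z.c = 1 := by linear_combination e1
    by_contra hne
    exact lam_ne_one _ hne this
  exact G.ext hv hc

/-- A rack isomorphism onto a centreless group is multiplicative. -/
lemma rack_hom (f : G 4 ≃ G 2) (hf : ∀ x y, f (x * y * x⁻¹) = f x * f y * (f x)⁻¹) (x y : G 4) :
    f (x * y) = f x * f y := by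
  have h : ∀ z, ((f x * f y)⁻¹ * f (x * y)) * z * ((f x * f y)⁻¹ * f (x * y))⁻¹ = z := by
    intro z
    obtain ⟨w, rfl⟩ := f.surjective z
    have h1 : f (x * y * w * (x * y)⁻¹) = f (x * y) * f w * (f (x * y))⁻¹ := hf _ _
    have h2 : f (x * (y * w * y⁻¹) * x⁻¹) = f x * (f y * f w * (f y)⁻¹) * (f x)⁻¹ := by
      rw [hf, hf]
    have h3 : x * y * w * (x * y)⁻¹ = x * (y * w * y⁻¹) * x⁻¹ := by group
    rw [h3, h2] at h1
    calc ((f x * f y)⁻¹ * f (x * y)) * f w * ((f x * f y)⁻¹ * f (x * y))⁻¹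
        = (f x * f y)⁻¹ * (f (x * y) * f w * (f (x * y))⁻¹) * (f x * f y) := by group
      _ = (f x * f y)⁻¹ * (f x * (f y * f w * (f y)⁻¹) * (f x)⁻¹) * (f x * f y) := by rw [← h1]
      _ = f w := by group
  have := center_trivial _ h20 h
  exact (inv_mul_eq_one.mp this).symm

lemma pow_trans (v : F × F) (n : ℕ) : (⟨v, 0⟩ : G i) ^ n = ⟨(n * v.1, n * v.2), 0⟩ := by
  induction n with
  | zero =>
    apply G.ext
    · rw [pow_zero, one_v]; ext <;> simp
    · rfl
  | succ n ih =>
    rw [pow_succ, ih]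
    apply G.ext
    · rw [mul_v]
      simp only [T_zero]
      ext <;> simp [add_mul]
    · rw [mul_c]; simp

lemma pow_c (x : G i) (n : ℕ) : (x ^ n).c = n * x.c := by
  induction n with
  | zero => simp [one_c]
  | succ n ih => rw [pow_succ, mul_c, ih]; push_cast; ring

/-- The racks are not isomorphic. -/
lemma no_rack_iso (f : G 4 ≃ G 2) (hf : ∀ x y, f (x * y * x⁻¹) = f x * f y * (f x)⁻¹) : False := by
  have hmul := rack_hom f hf
  let φ : G 4 ≃* G 2 := { f with map_mul' := hmul }
  have hφ : ∀ x, φ x = f x := fun _ => rfl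
  -- the property of `g = (0, 1)` in `G 4`
  have hP : ∀ n : G 4, n ^ 11 = 1 →
      ((⟨0, 1⟩ : G 4) * n * (⟨0, 1⟩ : G 4)⁻¹) * ((⟨0, 1⟩ : G 4)⁻¹ * n * (⟨0, 1⟩ : G 4)) =
        n ^ 7 := by
    intro n hn
    have hc : n.c = 0 := by
      have := congrArg G.c hn
      rw [pow_c, one_c] at this
      have h11 : ((11 : ℕ) : ZMod 5) = 1 := by decide
      rwa [h11, one_mul] at this
    obtain ⟨v, c⟩ := n
    simp only at hc
    subst hc
    rw [pow_trans]
    have e2 : (⟨0, 1⟩ : G 4)⁻¹ * ⟨v, 0⟩ * ⟨0, 1⟩ = (⟨0, 1⟩ : G 4)⁻¹ * ⟨v, 0⟩ * (⟨0, 1⟩ : G 4)⁻¹⁻¹ := by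
      rw [inv_inv]
    rw [e2, conj_eq, conj_eq]
    apply G.ext
    · rw [mul_v, inv_v, inv_c]
      simp only [T_zero]
      have l1 : lam 1 + lam (-1) = ((7 : ℕ) : F) := by decide
      have l2 : lam (4 * 1) + lam (4 * -1) = ((7 : ℕ) : F) := by decide
      ext
      · simp only [T, Prod.fst_add, Prod.fst_sub, Prod.fst_neg, Prod.fst_zero, Prod.snd_zero]
        rw [← l1]
        ring
      · simp only [T, Prod.snd_add, Prod.snd_sub, Prod.snd_neg, Prod.fst_zero, Prod.snd_zero]
        rw [← l2]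
        ring
    · rfl
  -- transport to `G 2`
  set g : G 2 := φ ⟨0, 1⟩ with hg
  have hQ : ∀ n : G 2, n ^ 11 = 1 → (g * n * g⁻¹) * (g⁻¹ * n * g) = n ^ 7 := by
    intro n hn
    obtain ⟨m, rfl⟩ := φ.surjective n
    have hm : m ^ 11 = 1 := by
      apply φ.injective
      rw [map_pow, hn, map_one]
    have := congrArg φ (hP m hm)
    simpa [hg] using this
  have hgc : g.c ≠ 0 := by
    intro h0
    -- then `g` commutes with the translations, but `(0,1)` does not
    have h11 : ((⟨(1, 0), 0⟩ : G 4)) ^ 11 = 1 := by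
      rw [pow_trans]
      apply G.ext
      · rw [one_v]; ext
        · change ((11 : ℕ) : F) * 1 = 0; decide
        · change ((11 : ℕ) : F) * 0 = 0; decide
      · rfl
    set n : G 2 := φ ⟨(1, 0), 0⟩ with hn
    have hn11 : n ^ 11 = 1 := by rw [hn, ← map_pow, h11, map_one]
    have hnc : n.c = 0 := by
      have := congrArg G.c hn11
      rw [pow_c, one_c] at this
      have h11 : ((11 : ℕ) : ZMod 5) = 1 := by decide
      rwa [h11, one_mul] at this
    have hcomm : g * n * g⁻¹ = n := by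
      rw [conj_eq]
      apply G.ext
      · rw [h0, hnc, T_zero, T_zero]; abel
      · rfl
    have h1 : φ ((⟨0, 1⟩ : G 4) * ⟨(1, 0), 0⟩ * (⟨0, 1⟩ : G 4)⁻¹) = φ ⟨(1, 0), 0⟩ := by
      rw [map_mul, map_mul, map_inv]
      exact hcomm
    have h2 := congrArg (fun x : G 4 => x.v.1) (φ.injective h1)
    rw [conj_eq] at h2
    simp only [T, Prod.fst_add, Prod.fst_sub, Prod.fst_zero] at h2
    exact absurd h2 (by decide)
  have hn1 : (⟨(1, 0), 0⟩ : G 2) ^ 11 = 1 := by
    rw [pow_trans]
    apply G.ext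
    · rw [one_v]; ext
      · change ((11 : ℕ) : F) * 1 = 0; decide
      · change ((11 : ℕ) : F) * 0 = 0; decide
    · rfl
  have hn2 : (⟨(0, 1), 0⟩ : G 2) ^ 11 = 1 := by
    rw [pow_trans]
    apply G.ext
    · rw [one_v]; ext
      · change ((11 : ℕ) : F) * 0 = 0; decide
      · change ((11 : ℕ) : F) * 1 = 0; decide
    · rfl
  have q1 := hQ _ hn1
  have q2 := hQ _ hn2
  have e2 : ∀ n : G 2, g⁻¹ * n * g = g⁻¹ * n * g⁻¹⁻¹ := by intro n; rw [inv_inv]
  rw [e2, conj_eq, conj_eq, pow_trans] at q1 q2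
  have r1 := congrArg (fun x : G 2 => x.v.1) q1
  have r2 := congrArg (fun x : G 2 => x.v.2) q2
  simp only [mul_v, inv_v, inv_c, T_zero, T, Prod.fst_add, Prod.fst_sub, Prod.fst_neg,
    Prod.snd_add, Prod.snd_sub, Prod.snd_neg] at r1 r2
  have s1 : lam g.c + lam (-g.c) = 7 := by
    have : ((7 : ℕ) : F) = 7 := rfl
    rw [this] at r1
    simp only [lam_zero] at r1
    linear_combination r1
  have s2 : lam (2 * g.c) + lam (2 * -g.c) = 7 := by
    have : ((7 : ℕ) : F) = 7 := rfl
    rw [this] at r2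
    simp only [mul_zero, lam_zero] at r2
    linear_combination r2
  have : ∀ c : ZMod 5, c ≠ 0 → lam c + lam (-c) = 7 → lam (2 * c) + lam (2 * -c) = 7 → False := by
    decide
  exact this g.c hgc s1 s2

end Q17.Rack
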